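import Pool.Agent.Helper93.F5.Flow

set_option autoImplicit false
open Finset

namespace Pool.Agent.Results.MP_9b53a1_co.OddnessFourF5

/-- The simple graph on `V` in which `x` and `y` are adjacent when an edge of `F` joins them. -/
def circuitGraph {V E : Type} (s t : E → V) (F : Finset E) : SimpleGraph V :=
  SimpleGraph.fromRel (fun x y => ∃ e ∈ F, s e = x ∧ t e = y)

/-- Let `G` be a finite loopless cubic multigraph without bridges, and `F` a set of edges with an
even number of edges (0 or 2) at every vertex, such that at most four connected components of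
`(V, F)` have an odd number of vertices. Then every edge `e0` lies in a perfect matching `M` such
that `M \ F` contains no odd edge cut; and if `F` is a 2-factor, then `G` has a nowhere-zero
`Z_2^3`-flow using at most five lines of the Fano plane, whose first coordinate is the indicator
of `F` and whose second coordinate is the indicator of the complement of `M`. -/
theorem result :
    ∀ (V E : Type) [Fintype V] [DecidableEq V] [Fintype E] [DecidableEq E] (s t : E → V),
      (∀ e, s e ≠ t e) →
      (∀ v : V, (univ.filter (fun e : E => s e = v ∨ t e = v)).card = 3) →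
      (∀ S : Finset V,
        (univ.filter (fun e : E => (s e ∈ S ∧ t e ∉ S) ∨ (s e ∉ S ∧ t e ∈ S))).card ≠ 1) →
      ∀ F : Finset E,
      (∀ v : V, Even (F.filter (fun e : E => s e = v ∨ t e = v)).card) →
      {C : (circuitGraph s t F).ConnectedComponent | Odd C.supp.ncard}.ncard ≤ 4 →
      ∀ e0 : E, ∃ M : Finset E, e0 ∈ M ∧
        (∀ v : V, (M.filter (fun e : E => s e = v ∨ t e = v)).card = 1) ∧
        (∀ Y : Finset V,
          (univ.filter (fun e : E => (s e ∈ Y ∧ t e ∉ Y) ∨ (s e ∉ Y ∧ t e ∈ Y))) ⊆ M \ F →
          Even (univ.filter (fun e : E => (s e ∈ Y ∧ t e ∉ Y) ∨ (s e ∉ Y ∧ t e ∈ Y))).card) ∧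
        ((∀ v : V, (F.filter (fun e : E => s e = v ∨ t e = v)).card = 2) →
          ∃ f : E → (Fin 3 → ZMod 2),
            (∀ e, f e ≠ 0) ∧
            (∀ v : V, ∑ e ∈ univ.filter (fun e : E => s e = v ∨ t e = v), f e = 0) ∧
            (univ.image (fun v : V =>
              (univ.filter (fun e : E => s e = v ∨ t e = v)).image f)).card ≤ 5 ∧
            (∀ e, f e 0 = if e ∈ F then 1 else 0) ∧
            (∀ e, f e 1 = if e ∈ M then 0 else 1)) := by
  intro V E _ _ _ _ s t hl h3 hb F hF h4 e0
  obtain ⟨M, heM, hM, hgood⟩ :=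
    Pool.Agent.Helper93.F5.matching hl h3 hb F hF h4 e0
  exact ⟨M, heM, hM, hgood, fun hF2 =>
    Pool.Agent.Helper93.F5.flow_of_good hl h3 F M hF2 hM hgood⟩

end Pool.Agent.Results.MP_9b53a1_co.OddnessFourF5
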