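import Pool.Agent.Helper97.FR.Outer

set_option autoImplicit false
open Finset

namespace Pool.Agent.Results.MP_9b53a1_co.ThreeMatchings

/-- The edge cut of `S` in the multigraph with vertex set `V`, edge set `E` and ends `s e`, `t e`. -/
def cut {V E : Type} [DecidableEq V] [Fintype E] (s t : E → V) (S : Finset V) : Finset E :=
  univ.filter (fun e : E => (s e ∈ S ∧ t e ∉ S) ∨ (s e ∉ S ∧ t e ∈ S))

/-- Perfect matchings. -/
def IsPM {V E : Type} [DecidableEq V] (s t : E → V) (M : Finset E) : Prop :=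
  ∀ v : V, (M.filter (fun e : E => s e = v ∨ t e = v)).card = 1

/-- `f` is a nowhere-zero `Z_2^3`-flow which uses at most four lines of the Fano plane. -/
def IsF4 {V E : Type} [Fintype V] [DecidableEq V] [Fintype E] (s t : E → V)
    (f : E → (Fin 3 → ZMod 2)) : Prop :=
  (∀ e, f e ≠ 0) ∧
  (∀ v : V, ∑ e ∈ univ.filter (fun e : E => s e = v ∨ t e = v), f e = 0) ∧
  (univ.image (fun v : V => (univ.filter (fun e : E => s e = v ∨ t e = v)).image f)).card ≤ 4

/-- Let `G` be a finite loopless cubic multigraph without bridges, `l ≥ 5` odd, and suppose that `G`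
has no edge cut of odd size strictly between `3` and `l` (no condition if `l = 5`).
(1) Every edge `e0` lies in a perfect matching `J` for which there are perfect matchings `M`, `N`
with `|J ∩ M| ≤ |V| / (2 l)` and `|J ∩ M ∩ N| ≤ |V| / (2 l (l + 2))`; `J`, `M`, `N` meet every
`3`-edge cut in exactly one edge.
(2) If `|V| < 2 l (l + 2)` then `G` has an `F_4`-flow.
(3) If `J`, `M` are perfect matchings which contain no `3`-edge cut and `J ∩ M` contains no edge cut
of size `l`, then there is a perfect matching `N` with `(l + 2) |J ∩ M ∩ N| ≤ |J ∩ M|`; if moreover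
`|J ∩ M| ≤ l + 1`, then `J ∩ M ∩ N = ∅` and the indicators of the complements of `J`, `M`, `N` are
the coordinates of an `F_4`-flow. -/
theorem result :
    ∀ (V E : Type) [Fintype V] [DecidableEq V] [Fintype E] [DecidableEq E] (s t : E → V),
      (∀ e, s e ≠ t e) →
      (∀ v : V, (univ.filter (fun e : E => s e = v ∨ t e = v)).card = 3) →
      (∀ S : Finset V, (cut s t S).card ≠ 1) →
      ∀ l : ℕ, Odd l → 5 ≤ l →
      (∀ S : Finset V, Odd (cut s t S).card → (cut s t S).card ≤ 3 ∨ l ≤ (cut s t S).card) →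
      (∀ e0 : E, ∃ J M N : Finset E, IsPM s t J ∧ IsPM s t M ∧ IsPM s t N ∧ e0 ∈ J ∧
        (∀ S : Finset V, (cut s t S).card = 3 → (J ∩ cut s t S).card = 1 ∧
          (M ∩ cut s t S).card = 1 ∧ (N ∩ cut s t S).card = 1) ∧
        2 * l * (J ∩ M).card ≤ Fintype.card V ∧
        2 * l * (l + 2) * (J ∩ M ∩ N).card ≤ Fintype.card V) ∧
      (Fintype.card V < 2 * l * (l + 2) → ∃ f : E → (Fin 3 → ZMod 2), IsF4 s t f) ∧
      (∀ J M : Finset E, IsPM s t J → IsPM s t M →
        (∀ S : Finset V, (cut s t S).card = 3 → ¬ cut s t S ⊆ J ∧ ¬ cut s t S ⊆ M) →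
        (∀ S : Finset V, (cut s t S).card = l → ¬ cut s t S ⊆ J ∩ M) →
        ∃ N : Finset E, IsPM s t N ∧ (l + 2) * (J ∩ M ∩ N).card ≤ (J ∩ M).card ∧
          ((J ∩ M).card ≤ l + 1 → J ∩ M ∩ N = ∅ ∧
            IsF4 s t (fun e => ![if e ∈ J then 0 else 1, if e ∈ M then 0 else 1,
              if e ∈ N then 0 else 1]))) := by
  intro V E _ _ _ _ s t hl h3 hb l hlo hl5 hcut
  obtain ⟨m1, m2⟩ := Pool.Agent.Helper97.FR.main hl h3 hb hlo hl5 hcut
  -- flows from three matchings
  have hflow : ∀ J M N : Finset E, IsPM s t J → IsPM s t M → IsPM s t N → J ∩ M ∩ N = ∅ →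
      IsF4 s t (fun e => ![if e ∈ J then 0 else 1, if e ∈ M then 0 else 1,
        if e ∈ N then 0 else 1]) := by
    intro J M N hJ hM hN he
    obtain ⟨f, f1, f2, f3, f4⟩ := Pool.Agent.Helper97.FR.flow_of_three h3 ![J, M, N]
      (by
        intro i
        fin_cases i
        · exact hJ
        · exact hM
        · exact hN)
      (by
        intro e
        by_contra hcon
        push Not at hcon
        have h : e ∈ J ∩ M ∩ N :=
          Finset.mem_inter.2 ⟨Finset.mem_inter.2 ⟨hcon 0, hcon 1⟩, hcon 2⟩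
        rw [he] at h
        simp at h)
    have hf : f = fun e => ![if e ∈ J then 0 else 1, if e ∈ M then 0 else 1,
        if e ∈ N then 0 else 1] := by
      funext e i
      rw [f4]
      fin_cases i <;> rfl
    rw [← hf]
    exact ⟨f1, f2, f3⟩
  have hL : 0 < 2 * l * (l + 2) := by positivity
  refine ⟨m1, fun hV => ?_, ?_⟩
  · by_cases hE : Nonempty E
    · obtain ⟨e0⟩ := hE
      obtain ⟨J, M, N, hJ, hM, hN, -, -, -, hc⟩ := m1 e0
      have h0 : (J ∩ M ∩ N).card = 0 := by
        by_contra hne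
        have h1 : 1 ≤ (J ∩ M ∩ N).card := Nat.one_le_iff_ne_zero.2 hne
        have h2 := Nat.mul_le_mul_left (2 * l * (l + 2)) h1
        omega
      exact ⟨_, hflow J M N hJ hM hN (Finset.card_eq_zero.1 h0)⟩
    · have hV0 : IsEmpty V := by
        constructor
        intro v
        have h1 := h3 v
        have h2 : (univ.filter (fun e : E => s e = v ∨ t e = v)) = ∅ := by
          ext e
          exact absurd ⟨e⟩ hE
        rw [h2] at h1
        simp at h1
      refine ⟨fun _ => 0, fun e => absurd ⟨e⟩ hE, fun v => hV0.elim v, ?_⟩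
      have h1 : (univ : Finset V) = ∅ := Finset.univ_eq_empty
      rw [h1, Finset.image_empty]
      simp
  · intro J M hJ hM hJM3 hJMl
    obtain ⟨N, hN, hc⟩ := m2 J M hJ hM hJM3 hJMl
    refine ⟨N, hN, hc, fun hsmall => ?_⟩
    have h0 : J ∩ M ∩ N = ∅ := by
      rw [← Finset.card_eq_zero]
      by_contra hne
      have h1 : 1 ≤ (J ∩ M ∩ N).card := Nat.one_le_iff_ne_zero.2 hne
      have h2 := Nat.mul_le_mul_left (l + 2) h1
      omega
    exact ⟨h0, hflow J M N hJ hM hN h0⟩

end Pool.Agent.Results.MP_9b53a1_co.ThreeMatchings
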